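import Pool.Agent.H92G.Loc
import Pool.Agent.H92G.Fac

/-!
# Quadratic twists over abelian extensions of imaginary quadratic fields: a theorem of Ramsey type

`K` is an imaginary quadratic field of class number one, `f_1, …, f_m` are Bianchi newforms of weight two over `K` with
arbitrary coefficients, and `F_1, …, F_m` are finite abelian extensions of `K` of squarefree conductors prime to two and to
the levels `n_i`: `F_i` is the class field of a finite group `Ψ_i` of characters of `K`.  The base change `π_i` of `f_i` to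
`F_i` is an automorphic representation of `PGL₂` over `F_i`, with `L(π_i ⊗ χ, s - 1/2) = L(f_i/F_i ⊗ χ, s)
= ∏_{ψ ∈ Ψ_i} L(f_i ⊗ ψ χ, s)` for the characters `χ` of `K`, seen as characters of `F_i` by the norm.  Suppose that
`L(f_i/F_i, 1) ≠ 0`.

Let `l` be a prime, `𝔪` a maximal ideal above `l` of the ring of the algebraic integers, `e` and `d` numbers and `S` a finite
set of places of `K`.  A place `v` of `K` is admissible if it is prime to two, to the levels, to the conductors of the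
`ψ ∈ Ψ_i` and not in `S`, and if `c_i(v) - ψ(v) - conj ψ(v)` is not in `𝔪` for all `i` and all `ψ ∈ Ψ_i`.  (If `l = 2` and
the degrees `[F_i : K]` are powers of two this is the condition that all the eigenvalues `c_i(v)` are prime to `𝔪`.)  The
group `𝒢` is any group of characters of `K` of exponent `l^e` whose conductors are products of different admissible places:
for `l^e = 2` the quadratic characters of such conductors, or any subgroup of this group.

Theorem.  Every infinite `𝒢` has an infinite subgroup `ℋ`, stable under any given finite group `Δ` of automorphisms of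
`𝒢`, such that for all `χ ∈ ℋ` the characters `χ` have trivial local components at the places in `S`, and
`L(f_i/F_i ⊗ χ, s)` is entire and not zero at `s = 1` for all `i`.  More exactly: there are bounds `B(0) < B(1) < …`, which
depend only on the `f_i`, `F_i`, `𝔪`, `e`, `S` and on the order of `Δ`, such that from every sequence `χ_0, χ_1, …` in `𝒢` one
gets elements of such an `ℋ` as products `∏_{j ∈ S_k} χ_j` over certain nonempty sets `S_k` of indices in
`[B(k), B(k + 1))`, `k ≥ 0`.  In particular, a finite group `𝒢` of more than `l^(e B(t))` characters has such a subgroup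
`ℋ` of order at least `t`, and at most `2^B(1)` translates of the set of the good characters, those with
`L(f_i/F_i ⊗ χ, 1) ≠ 0` for all `i` and with trivial local components at the places in `S`, cover `𝒢`.  Hence there is a
`C` such that for all `X` the number of the `χ ∈ 𝒢` with conductor of norm at most `X` is at most `C` times the number of
the good `χ ∈ 𝒢` with conductor of norm at most `C X`.

So this is a statement on the twists in the conjecture, over the number fields `F_i`: for quadratic `χ` the root numbers of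
the `π_i ⊗ χ` for the good `χ` are `1`, and the central orders are zero.  The `f_i` can be twists of other newforms by
quadratic characters `χ_0` of `K`; then the twists are those by the `χ' = χ_0 χ`, with `χ'_v = χ_0,v` for `v ∈ S`.

The library has, for this problem, twists over `K` itself by quadratic characters (`BianchiTwists`,
`BianchiCharacterCount`: coverings by translates and counting, without subgroups, and for `F_i = K`, `l^e = 2`), and over
`ℚ` characters of prime power order over abelian number fields (`AbelianBaseFields`, `RelativeTwists`,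
`GroupsOfCharacters`); `BianchiRamsey` of helper92 is the case of elliptic curves, `F_i = K` and `S` empty.

The proof.  Up to a nonzero factor, `L(f ⊗ ψ χ, 1)` is the sum `∑ conj (ψ χ)(x) Φ(x/m)` over the `x` modulo
the conductor `m`, where `Φ` is a primitive of the harmonic differential of `f`.  The values of `Φ` at the cusps generate a
finitely generated group which is stable under the Hecke operators; let `Λ` be the group which it generates over the
ring generated by the roots of unity of orders dividing `l^e` times the order of `ψ`.  For a fixed modulus, a multiple of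
the conductors, the sums are, as functions of `χ` modulo the steps of a filtration of `Λ` by powers of `𝔪`, polynomial maps
from the group `𝒢` to a finite group, since `χ(x) ≡ 1 mod 𝔪`.  For
polynomial maps to a finite group there is a theorem of Ramsey type: they are constant on the multiples
`∏_{j ∈ S} χ_j`, together with their images under the elements of the group ring of `Δ`, for some nonempty `S` in any
given set of sufficiently many indices.  So the sums for the elements of `ℋ` are congruent to that of `χ = 1`, which is a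
product of units at `𝔪` and of the sum for `ψ`; a change of the modulus multiplies the sums by products of factors
`c(v) - ψχ(v) - conj ψχ(v) ≡ c(v) - ψ(v) - conj ψ(v) mod 𝔪`.  This is applied to the pairs `(f_i, ψ)`, `ψ ∈ Ψ_i`, one
after the other.
-/

set_option autoImplicit false

open NumberField IsDedekindDomain Matrix Filter Topology

namespace Pool.Agent.Results.MP_50bb2e_nt.BianchiAbelianExtensions

/-- `K` is an imaginary quadratic field, `σ` is one of its two embeddings in `ℂ`, and `δ` generates the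
different of `K`: an `x ∈ K` is in `𝓞` if and only if `Tr(x y / δ) ∈ ℤ` for all `y ∈ 𝓞`. -/
structure IsFieldData (K : Type) [Field K] [NumberField K] (σ : K →+* ℂ) (δ : K) : Prop where
  quadratic : Module.finrank ℚ K = 2
  imaginary : ∃ x, (starRingEnd ℂ) (σ x) ≠ σ x
  different : ∀ x : K, (∃ a : 𝓞 K, (a : K) = x) ↔
    ∀ y : 𝓞 K, ∃ m : ℤ, Algebra.trace ℚ K (x * y / δ) = m

/-- `h(y) = ∫_0^∞ exp(-1/v - y v) dv = 2 y^(-1/2) K₁(2 √y)`, with the Bessel function `K₁`. -/
noncomputable def bessel (y : ℝ) : ℝ := ∫ v in Set.Ioi (0 : ℝ), Real.exp (-(1 / v) - y * v)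

/-- The additive character `e(z) = exp(2πi (z/δ + conj (z/δ)))` of `ℂ`, trivial on `𝓞`. -/
noncomputable def addChar (δ z : ℂ) : ℂ :=
  Complex.exp (2 * Real.pi * Complex.I * (z / δ + (starRingEnd ℂ) (z / δ)))

/-- The denominator `|c z + d|² + |c|² t²` of the action of the matrix `(a, b; c, d)` on the hyperbolic
space `{(z, t) : z ∈ ℂ, t > 0}`. -/
noncomputable def den (c d z : ℂ) (t : ℝ) : ℝ := ‖c * z + d‖ ^ 2 + ‖c‖ ^ 2 * t ^ 2

/-- The first coordinate `((a z + b) conj (c z + d) + a conj(c) t²) / (|c z + d|² + |c|² t²)` of the image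
of `(z, t)` under the matrix `(a, b; c, d)`. -/
noncomputable def actZ (a b c d z : ℂ) (t : ℝ) : ℂ :=
  ((a * z + b) * (starRingEnd ℂ) (c * z + d) + a * (starRingEnd ℂ) c * (t : ℂ) ^ 2) /
    (den c d z t : ℂ)

/-- The second coordinate, for a matrix of determinant one; in general it is `|ad - bc|` times this. -/
noncomputable def actT (c d z : ℂ) (t : ℝ) : ℝ := t / den c d z t

/-- `V_j(t, q) = α^j + β^j` for `α + β = t`, `α β = q`. -/
noncomputable def lucas (t q : ℂ) : ℕ → ℂ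
  | 0 => 2
  | 1 => t
  | (j + 2) => t * lucas t q (j + 1) - q * lucas t q j

section field
variable {K : Type} [Field K] [NumberField K]

/-- The function `Φ(z, t) = ∑_{x ∈ 𝓞} c((x)) t² h(N(x) (2πt/|δ|)²) e(x z)
  = (|δ|/π) ∑_{x ≠ 0} (c((x))/|x|) t K₁(4π|x|t/|δ|) e(x z)` on the hyperbolic space, with the coefficients `c`.
Up to a constant factor it is the primitive, zero at the cusp `∞`, of the harmonic differential of the
form of weight two with the Fourier coefficients `c`: its derivative by `t` is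
`-4 ∑_{x ≠ 0} c((x)) t K₀(4π|x|t/|δ|) e(x z)`. -/
noncomputable def primitive (σ : K →+* ℂ) (δ : K) (c : Ideal (𝓞 K) → ℂ) (z : ℂ) (t : ℝ) : ℂ :=
  ∑' x : 𝓞 K, c (Ideal.span {x}) * ((t ^ 2 * bessel (Ideal.absNorm (Ideal.span {x}) *
    (2 * Real.pi * t / ‖σ δ‖) ^ 2) : ℝ) : ℂ) * addChar (σ δ) (σ x * z)

/-- The numbers `c(I)` are the Hecke eigenvalues of a Bianchi newform `f` of weight two, level `(n)` and
trivial character over `K`: they satisfy `c(𝓞) = 1`, the (trivial) bound `c(I) = O(N(I))` and the Hecke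
relations `c(v I) = c(v) c(I)` for `v ∤ I`, `c(v² I) = c(v) c(v I) - N(v) c(I)` for the primes `v ∤ n`, and
`c(v I) = c(v) c(I)` for `v ∣ n`; the differential `dΦ` of the function `Φ` with the coefficients `c` is
invariant under `Γ₀(n)`, that is, `Φ(γ P) - Φ(P)` is a constant for every `γ ∈ Γ₀(n)`; and `dΦ` is an
eigenform, with the eigenvalue `±1`, of the Fricke involution `W = (0, -1; n, 0)`. -/
structure IsNewform (σ : K →+* ℂ) (δ : K) (n : 𝓞 K) (c : Ideal (𝓞 K) → ℂ) : Prop where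
  level : n ≠ 0
  zero : c ⊥ = 0
  one : c ⊤ = 1
  bound : ∃ C : ℝ, ∀ I, ‖c I‖ ≤ C * Ideal.absNorm I
  good : ∀ v : HeightOneSpectrum (𝓞 K), n ∉ v.asIdeal → ∀ I,
    (¬ v.asIdeal ∣ I → c (v.asIdeal * I) = c v.asIdeal * c I) ∧
    c (v.asIdeal * (v.asIdeal * I)) = c v.asIdeal * c (v.asIdeal * I) -
      Ideal.absNorm v.asIdeal * c I
  bad : ∀ v : HeightOneSpectrum (𝓞 K), n ∈ v.asIdeal → ∀ I,
    c (v.asIdeal * I) = c v.asIdeal * c I
  invariant : ∃ κ : SpecialLinearGroup (Fin 2) (𝓞 K) → ℂ,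
    ∀ γ : SpecialLinearGroup (Fin 2) (𝓞 K), n ∣ γ.1 1 0 → ∀ (z : ℂ) (t : ℝ), 0 < t →
      primitive σ δ c (actZ (σ (γ.1 0 0)) (σ (γ.1 0 1)) (σ (γ.1 1 0)) (σ (γ.1 1 1)) z t)
        (actT (σ (γ.1 1 0)) (σ (γ.1 1 1)) z t) = primitive σ δ c z t + κ γ
  fricke : ∃ w κ : ℂ, w * w = 1 ∧ ∀ (z : ℂ) (t : ℝ), 0 < t →
    primitive σ δ c (actZ 0 (-1) (σ n) 0 z t) (‖σ n‖ * actT (σ n) 0 z t) =
      -w * primitive σ δ c z t + κ

/-- `χ` is a character of `K` of finite order and of conductor `∏_{v ∈ T} v`, as a function on `𝓞` (`K` has class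
number one): a primitive character modulo the product of the `v ∈ T`, trivial on the units, and zero on the `x` which
are not prime to the conductor. -/
structure IsCharacter (T : Finset (HeightOneSpectrum (𝓞 K))) (χ : 𝓞 K → ℂ) : Prop where
  one : χ 1 = 1
  mul : ∀ x y, χ (x * y) = χ x * χ y
  zero : ∀ x, χ x = 0 ↔ ∃ v ∈ T, x ∈ v.asIdeal
  periodic : ∀ x y, (∀ v ∈ T, x - y ∈ v.asIdeal) → χ x = χ y
  units : ∀ u, IsUnit u → χ u = 1
  primitive : ∀ v ∈ T, ∃ x, (∀ v' ∈ T, v' ≠ v → x - 1 ∈ v'.asIdeal) ∧ χ x ≠ 0 ∧ χ x ≠ 1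
  order : ∃ k : ℕ, 0 < k ∧ ∀ x, χ x ≠ 0 → χ x ^ k = 1

/-- `χ(v)` is the value of `χ` at a generator of `v`. -/
noncomputable def at' (χ : 𝓞 K → ℂ) (v : HeightOneSpectrum (𝓞 K)) [IsPrincipalIdealRing (𝓞 K)] : ℂ :=
  χ (Submodule.IsPrincipal.generator v.asIdeal)

/-- The norm of the conductor `∏_{v ∈ T} v`. -/
noncomputable def conductorNorm (T : Finset (HeightOneSpectrum (𝓞 K))) : ℕ :=
  ∏ v ∈ T, Ideal.absNorm v.asIdeal

variable [IsPrincipalIdealRing (𝓞 K)]

section extension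

variable (F : Type) [Field F] [NumberField F] [Algebra K F]

/-- The places `u` of `F` above `v`. -/
def Above (v : HeightOneSpectrum (𝓞 K)) : Type :=
  {u : HeightOneSpectrum (𝓞 F) // u.asIdeal.comap (algebraMap (𝓞 K) (𝓞 F)) = v.asIdeal}

open Classical in
/-- The Euler factor of `L(f/F ⊗ χ, s)` at a place `u` of `F` of norm `Q = N(v)^r` above `v`: with
`(1 - α N(v)^(-s)) (1 - β N(v)^(-s))` the polynomial of `f` at `v` it is
`((1 - (α χ(v))^r Q^(-s)) (1 - (β χ(v))^r Q^(-s)))⁻¹`, as the norm of `u` is `v^r`. -/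
noncomputable def factorAbove (n : 𝓞 K) (c : Ideal (𝓞 K) → ℂ) (χ : 𝓞 K → ℂ)
    (v : HeightOneSpectrum (𝓞 K)) (Q : ℕ) (s : ℂ) : ℂ :=
  if n ∈ v.asIdeal then (1 - (c v.asIdeal * at' χ v) ^ (Nat.log (Ideal.absNorm v.asIdeal) Q) *
    (Q : ℂ) ^ (-s))⁻¹
  else (1 - lucas (c v.asIdeal) (Ideal.absNorm v.asIdeal) (Nat.log (Ideal.absNorm v.asIdeal) Q) *
    at' χ v ^ (Nat.log (Ideal.absNorm v.asIdeal) Q) * (Q : ℂ) ^ (-s) +
      at' χ v ^ (2 * Nat.log (Ideal.absNorm v.asIdeal) Q) * (Q : ℂ) ^ (1 - 2 * s))⁻¹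

/-- `G` is `L(f/F ⊗ χ, s)`, continued to an entire function: for `Re s > 2` it is the product, over the places `v` of
`K`, of the products of the Euler factors at the places of `F` above `v`. -/
def IsLFunctionOver (n : 𝓞 K) (c : Ideal (𝓞 K) → ℂ) (χ : 𝓞 K → ℂ) (G : ℂ → ℂ) : Prop :=
  Differentiable ℂ G ∧ ∀ s : ℂ, 2 < s.re →
    HasProd (fun v : HeightOneSpectrum (𝓞 K) =>
      ∏ᶠ u : Above F v, factorAbove n c χ v (Ideal.absNorm u.1.asIdeal) s) (G s)

/-- `F/K` is abelian, of squarefree conductor prime to `2 n`, with the group `Ψ` of characters `ψ_g` of conductors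
`∏_{v ∈ R_g} v`: the order of `Ψ` is the degree of `F`, and
the decomposition law holds: if `f_v` is the number of the different values `ψ_g(v) ≠ 0`, `g ∈ Ψ`, then the places of
`F` above `v` have norm `N(v)^(f_v)`, and their number is `1/f_v` times the number of the characters `ψ_g`, `g ∈ Ψ`,
unramified at `v`. -/
structure IsAbelian (n : 𝓞 K) {Ψ : Type} [CommGroup Ψ]
    (R : Ψ → Finset (HeightOneSpectrum (𝓞 K))) (ψ : Ψ → 𝓞 K → ℂ) : Prop where
  character : ∀ g, IsCharacter (R g) (ψ g)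
  coprime : ∀ g, ∀ v ∈ R g, 2 * n ∉ v.asIdeal
  injective : Function.Injective ψ
  product : ∀ g h x, ψ g x ≠ 0 → ψ h x ≠ 0 → ψ (g * h) x = ψ g x * ψ h x
  order : Nat.card Ψ = Module.finrank K F
  norm : ∀ (v : HeightOneSpectrum (𝓞 K)) (u : Above F v),
    Ideal.absNorm u.1.asIdeal =
      Ideal.absNorm v.asIdeal ^ Nat.card {z : ℂ // z ≠ 0 ∧ ∃ g, at' (ψ g) v = z}
  number : ∀ v : HeightOneSpectrum (𝓞 K),
    Nat.card (Above F v) * Nat.card {z : ℂ // z ≠ 0 ∧ ∃ g, at' (ψ g) v = z} =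
      Nat.card {g : Ψ // at' (ψ g) v ≠ 0}

end extension

/-- The places `v` admissible for the form with the eigenvalues `c` of level `n` and the group of characters `ψ_g`: `v` is
prime to `2 n` and to the conductors of the `ψ_g`, and for all `g` the number `c(v) - ψ_g(v) - conj ψ_g(v)` is an algebraic
integer which is not in `𝔪`. -/
def Admissible (𝔪 : Ideal (integralClosure ℤ ℂ)) (n : 𝓞 K) (c : Ideal (𝓞 K) → ℂ) {Ψ : Type}
    (R : Ψ → Finset (HeightOneSpectrum (𝓞 K))) (ψ : Ψ → 𝓞 K → ℂ)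
    (v : HeightOneSpectrum (𝓞 K)) : Prop :=
  2 * n ∉ v.asIdeal ∧ ∀ g : Ψ, v ∉ R g ∧ ∃ y : integralClosure ℤ ℂ,
    (y : ℂ) = c v.asIdeal - at' (ψ g) v - (starRingEnd ℂ) (at' (ψ g) v) ∧ y ∉ 𝔪

omit [IsPrincipalIdealRing (𝓞 K)] in
/-- `𝒢` is a group of characters `χ_g` of `K` of exponent `k`, of conductors `∏_{v ∈ T_g} v` which are products of
different places in the set `A`: the product `χ_g χ_h` is the primitive character `χ_(gh)`. -/
structure IsCharacterGroup (A : HeightOneSpectrum (𝓞 K) → Prop) (k : ℕ) {𝒢 : Type} [CommGroup 𝒢]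
    (T : 𝒢 → Finset (HeightOneSpectrum (𝓞 K))) (χ : 𝒢 → 𝓞 K → ℂ) : Prop where
  character : ∀ g, IsCharacter (T g) (χ g)
  admissible : ∀ g, ∀ v ∈ T g, A v
  injective : Function.Injective χ
  product : ∀ g h x, χ g x ≠ 0 → χ h x ≠ 0 → χ (g * h) x = χ g x * χ h x
  exponent : ∀ g : 𝒢, g ^ k = 1

/-- The character `χ`, unramified at the places in `S`, is good: its local components at the places in `S` are trivial, and
`L(f_i/F_i ⊗ χ, s)` extends to an entire function which is not zero at `s = 1`, for all `i`. -/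
def Good {m : ℕ} (F : Fin m → Type) [∀ i, Field (F i)] [∀ i, NumberField (F i)]
    [∀ i, Algebra K (F i)] (n : Fin m → 𝓞 K) (c : Fin m → Ideal (𝓞 K) → ℂ)
    (S : Finset (HeightOneSpectrum (𝓞 K))) (χ : 𝓞 K → ℂ) : Prop :=
  (∀ v ∈ S, at' χ v = 1) ∧ ∀ i, ∃ G : ℂ → ℂ, IsLFunctionOver (F i) (n i) (c i) χ G ∧ G 1 ≠ 0

end field

/-- Let `K` be an imaginary quadratic field of class number one, let `f_i` (`i < m`) be Bianchi newforms of weight two
over `K` and `F_i/K` finite abelian extensions of squarefree conductors prime to `2 n_i`, and suppose that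
`L(f_i/F_i, s)` is entire with `L(f_i/F_i, 1) ≠ 0`.  Let `l` be a prime, `𝔪` a maximal ideal above `l` of the ring of the
algebraic integers, and `S` a finite set of places.
For all `e` and `d` there is a function `B` with the following properties.  Let `𝒢` be a group, finite or infinite, of
characters of `K` of exponent `l^e` (for `l^e = 2`: of quadratic characters) whose conductors are products of different
admissible places not in `S`, and let `Δ` be a group of at most `d` automorphisms of `𝒢`.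
(1) For every sequence `g_0, g_1, …` in `𝒢` there are nonempty sets `S_k ⊆ [B(k), B(k + 1))` such that the products
`∏_{j ∈ S_k} g_j` are in a `Δ`-stable subgroup `ℋ` of `𝒢` of good characters.
(2) If `𝒢` is infinite it has an infinite `Δ`-stable subgroup `ℋ` of good characters.
(3) If `𝒢` has more than `l^(e B(t))` elements it has a `Δ`-stable subgroup `ℋ` of at least `t` elements, all good.
(4) There are at most `2^B(1)` elements `k` of `𝒢` such that for every `g ∈ 𝒢` the character `χ_(gk)` is good for one of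
these `k`.
(5) There is a `C` such that for all `X` the number of the characters in `𝒢` with conductor of norm at most `X` is at most
`C` times the number of the good characters in `𝒢` with conductor of norm at most `C X`. -/
theorem result (K : Type) [Field K] [NumberField K] [IsPrincipalIdealRing (𝓞 K)] (σ : K →+* ℂ)
    (δ : K) (hK : IsFieldData K σ δ) {m : ℕ} (n : Fin m → 𝓞 K) (c : Fin m → Ideal (𝓞 K) → ℂ)
    (hf : ∀ i, IsNewform σ δ (n i) (c i))
    (F : Fin m → Type) [∀ i, Field (F i)] [∀ i, NumberField (F i)] [∀ i, Algebra K (F i)]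
    (Ψ : Fin m → Type) [∀ i, CommGroup (Ψ i)] [∀ i, Finite (Ψ i)]
    (R : (i : Fin m) → Ψ i → Finset (HeightOneSpectrum (𝓞 K))) (ψ : (i : Fin m) → Ψ i → 𝓞 K → ℂ)
    (hF : ∀ i, IsAbelian (F i) (n i) (R i) (ψ i))
    (hL : ∀ i, ∃ G : ℂ → ℂ, IsLFunctionOver (F i) (n i) (c i) (fun _ => 1) G ∧ G 1 ≠ 0)
    {l : ℕ} (hl : l.Prime) (𝔪 : Ideal (integralClosure ℤ ℂ)) (hm : 𝔪.IsMaximal)
    (hlm : (l : integralClosure ℤ ℂ) ∈ 𝔪) (S : Finset (HeightOneSpectrum (𝓞 K))) (e d : ℕ) :
    ∃ B : ℕ → ℕ, ∀ (𝒢 : Type) [CommGroup 𝒢] (T : 𝒢 → Finset (HeightOneSpectrum (𝓞 K)))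
      (χ : 𝒢 → 𝓞 K → ℂ), IsCharacterGroup
        (fun v => v ∉ S ∧ ∀ i, Admissible 𝔪 (n i) (c i) (R i) (ψ i) v) (l ^ e) T χ →
      (∀ Δ : Subgroup (MulAut 𝒢), Finite Δ → Nat.card Δ ≤ d →
        (∀ g : ℕ → 𝒢, ∃ I : ℕ → Finset ℕ,
          (∀ k, (I k).Nonempty ∧ ∀ j ∈ I k, B k ≤ j ∧ j < B (k + 1)) ∧
          ∃ ℋ : Subgroup 𝒢, (∀ k, ∏ j ∈ I k, g j ∈ ℋ) ∧ (∀ s ∈ Δ, ∀ x ∈ ℋ, s x ∈ ℋ) ∧
            ∀ x ∈ ℋ, Good F n c S (χ x)) ∧
        (Infinite 𝒢 → ∃ ℋ : Subgroup 𝒢, Infinite ℋ ∧ (∀ s ∈ Δ, ∀ x ∈ ℋ, s x ∈ ℋ) ∧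
          ∀ x ∈ ℋ, Good F n c S (χ x)) ∧
        (∀ t : ℕ, l ^ (e * B t) < Nat.card 𝒢 → ∃ ℋ : Subgroup 𝒢, t ≤ Nat.card ℋ ∧
          (∀ s ∈ Δ, ∀ x ∈ ℋ, s x ∈ ℋ) ∧ ∀ x ∈ ℋ, Good F n c S (χ x))) ∧
      (∃ 𝒦 : Finset 𝒢, 𝒦.card ≤ 2 ^ B 1 ∧ ∀ g : 𝒢, ∃ k ∈ 𝒦, Good F n c S (χ (g * k))) ∧
      ∃ C : ℕ, ∀ X : ℕ, {g : 𝒢 | conductorNorm (T g) ≤ X}.ncard ≤
        C * {g : 𝒢 | conductorNorm (T g) ≤ C * X ∧ Good F n c S (χ g)}.ncard := by
  classical
  have h : K4H55.BI.IQ K σ δ := ⟨hK.quadratic, hK.imaginary, inferInstance, hK.different⟩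
  have hf' : ∀ i, K4H55.BI.BF σ δ (n i) (c i) := fun i => ⟨(hf i).level, (hf i).zero, (hf i).one,
    (hf i).bound, (hf i).good, (hf i).bad, (hf i).invariant, (hf i).fricke⟩
  have hluc : ∀ (t q : ℂ) (j : ℕ), lucas t q j = K4H55.CX.luc t q j := by
    intro t q j
    induction j using Nat.twoStepInduction with
    | zero => rfl
    | one => rfl
    | more j h1 h2 => rw [lucas, K4H55.CX.luc, h1, h2]
  have hch : ∀ (T : Finset (HeightOneSpectrum (𝓞 K))) (χ : 𝓞 K → ℂ), IsCharacter T χ →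
      H92P.CP T χ := fun T χ h1 =>
    ⟨h1.one, h1.mul, h1.zero, h1.periodic, h1.units, h1.primitive, h1.order⟩
  have hgd : ∀ (n : 𝓞 K) (v : HeightOneSpectrum (𝓞 K)), 2 * n ∉ v.asIdeal → H92G.Gd n v :=
    fun n v hv => ⟨fun h2 => hv (v.asIdeal.mul_mem_right _ h2),
      fun h2 => hv (v.asIdeal.mul_mem_left _ h2)⟩
  have hfac : ∀ i, ∀ (χ : 𝓞 K → ℂ) (v : HeightOneSpectrum (𝓞 K)) (Q : ℕ) (s : ℂ),
      factorAbove (n i) (c i) χ v Q s =
        H92G.facT (n i) (c i) v (χ (K4H55.BI.gen v)) Q s := by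
    intro i χ v Q s
    unfold factorAbove H92G.facT
    rw [hluc]
    rfl
  have hCF : ∀ i, H92P.CFp (R i) (ψ i) := fun i =>
    ⟨fun g => hch _ _ ((hF i).character g), (hF i).product⟩
  have hlaw : ∀ i, K4H55.CX.Law (F i) (ψ i) := fun i =>
    ⟨fun v u hu => (hF i).norm v ⟨u, hu⟩, fun v => (hF i).number v⟩
  have hRg : ∀ i g, ∀ v ∈ R i g, H92G.Gd (n i) v := fun i g v hv => hgd _ _ ((hF i).coprime g v hv)
  -- the L-function of the twist over `F_i`
  have hprod : ∀ (i : Fin m) (χ : 𝓞 K → ℂ) (s : ℂ) [Fintype (Ψ i)],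
      (fun v : HeightOneSpectrum (𝓞 K) =>
        ∏ᶠ u : Above (F i) v, factorAbove (n i) (c i) χ v (Ideal.absNorm u.1.asIdeal) s) =
      fun v => ∏ g : Ψ i, K4H55.CX.efx (n i) (c i) (fun x => χ x * ψ i g x) s v := by
    intro i χ s _
    funext v
    simp only [hfac]
    exact H92G.above_prodT (n := n i) (c := c i) (hCF i) (hlaw i) χ v s
  -- the central values of the twists by the characters of the extension
  have hval : ∀ (i : Fin m) (g : Ψ i), H92.val h (c i) (R i g) (K4H55.CX.br (ψ i g)) ≠ 0 := by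
    intro i g
    have : Fintype (Ψ i) := Fintype.ofFinite _
    obtain ⟨G, ⟨g1, g2⟩, g3⟩ := hL i
    choose G' C' k1 k2 k3 k4 using fun g : Ψ i => H92G.val_g h (hf' i) ((hCF i).ch g) (hRg i g)
    have h1 : G = fun s => ∏ g, G' g s := by
      refine H92.eq_of_prod (f := fun s v => ∏ g : Ψ i,
        K4H55.CX.efx (n i) (c i) (ψ i g) s v) g1
        (Differentiable.fun_finsetProd fun g _ => k1 g) (fun s hs => ?_) fun s hs => ?_
      · have h2 := g2 s hs
        rw [hprod] at h2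
        simp only [one_mul] at h2
        exact h2
      · exact hasProd_prod fun g _ => k2 g s hs
    rw [h1, Finset.prod_ne_zero_iff] at g3
    have h3 := g3 g (Finset.mem_univ g)
    rw [k4] at h3
    exact right_ne_zero_of_mul h3
  -- the theorem of Ramsey type
  have hlm' : ((l : ℕ) : integralClosure ℤ ℂ) ∈ 𝔪 := hlm
  obtain ⟨B, hB⟩ := H92P.ramPp_and (H92G.ram_S hl S e (d + 1))
    (H92G.ramPp_fin (ι := (i : Fin m) × Ψ i) (p := l) (b := e) (d := d + 1)
      (fun ig => H92G.Adg 𝔪 (n ig.1) (c ig.1) (R ig.1 ig.2) (ψ ig.1 ig.2))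
      (fun ig T χ => H92.val h (c ig.1) (T ∪ R ig.1 ig.2)
        (K4H55.CX.br fun x => χ x * ψ ig.1 ig.2 x) ≠ 0)
      fun ig => H92G.bia_towerg hl hm hlm' h (hf' ig.1) ((hCF ig.1).ch ig.2) (hRg ig.1 ig.2)
        (hval ig.1 ig.2) e (d + 1))
  refine ⟨B, fun 𝒢 _ T χ hχ => ?_⟩
  have hCG : H92P.CGp T χ := ⟨fun g => hch _ _ (hχ.character g), hχ.product⟩
  have hadm : ∀ g, ∀ v ∈ T g, v ∉ S ∧ ∀ ig : (i : Fin m) × Ψ i,
      H92G.Adg 𝔪 (n ig.1) (c ig.1) (R ig.1 ig.2) (ψ ig.1 ig.2) v := by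
    intro g v hv
    obtain ⟨h1, h2⟩ := hχ.admissible g v hv
    refine ⟨h1, fun ig => ?_⟩
    obtain ⟨h3, h4⟩ := h2 ig.1
    exact ⟨hgd _ _ h3, (h4 ig.2).1, (h4 ig.2).2⟩
  -- the good characters
  have hgood : ∀ x : 𝒢, ((∀ v ∈ S, χ x (K4H55.BI.gen v) = 1) ∧ ∀ ig : (i : Fin m) × Ψ i,
      H92.val h (c ig.1) (T x ∪ R ig.1 ig.2)
        (K4H55.CX.br fun y => χ x y * ψ ig.1 ig.2 y) ≠ 0) → Good F n c S (χ x) := by
    rintro x ⟨hx1, hx2⟩
    refine ⟨hx1, fun i => ?_⟩
    have : Fintype (Ψ i) := Fintype.ofFinite _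
    have h1 : ∀ g : Ψ i, ∃ G : ℂ → ℂ, Differentiable ℂ G ∧ (∀ s : ℂ, 2 < s.re →
        HasProd (K4H55.CX.efx (n i) (c i) (fun y => χ x y * ψ i g y) s) (G s)) ∧ G 1 ≠ 0 := by
      intro g
      refine H92G.chr_neg h (hf' i) (H92G.cp_mul (hCG.ch x) ((hCF i).ch g) ?_) ?_ (hx2 ⟨i, g⟩)
      · rw [Finset.disjoint_left]
        intro v hv
        exact ((hadm x v hv).2 ⟨i, g⟩).2.1
      · intro v hv
        rcases Finset.mem_union.1 hv with h2 | h2
        · exact ((hadm x v h2).2 ⟨i, g⟩).1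
        · exact hRg i g v h2
    choose G g1 g2 g3 using h1
    refine ⟨fun s => ∏ g, G g s, ⟨Differentiable.fun_finsetProd fun g _ => g1 g,
      fun s hs => ?_⟩, Finset.prod_ne_zero_iff.2 fun g _ => g3 g⟩
    rw [hprod]
    exact hasProd_prod fun g _ => g2 g s hs
  have hmain : ∀ (τ : Fin (d + 1) → 𝒢 →* 𝒢) (g : ℕ → 𝒢), ∃ I : ℕ → Finset ℕ,
      (∀ k, (I k).Nonempty ∧ I k ⊆ Finset.Ico (B k) (B (k + 1))) ∧
      ∀ x ∈ H92.clo τ g I, Good F n c S (χ x) := by
    intro τ g
    obtain ⟨I, hI1, hI2⟩ := hB 𝒢 T χ hCG hχ.exponent hadm τ g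
    exact ⟨I, hI1, fun x hx => hgood x (hI2 x hx)⟩
  refine ⟨fun Δ hΔf hΔd => ?_, ?_⟩
  · -- the automorphisms
    obtain ⟨τ, i0, hτ0, hτΔ⟩ : ∃ (τ : Fin (d + 1) → 𝒢 →* 𝒢) (i0 : Fin (d + 1)),
        (∀ x, τ i0 x = x) ∧
        ∀ s ∈ Δ, ∀ i, ∃ j, ∀ x, (s : 𝒢 ≃* 𝒢) (τ i x) = τ j x := by
      have : Fintype Δ := Fintype.ofFinite Δ
      have hpos : 0 < Nat.card Δ := Nat.card_pos
      obtain ⟨f, hf⟩ : ∃ f : Fin (d + 1) → Δ, Function.Surjective f := by
        have e1 : Δ ≃ Fin (Nat.card Δ) := Finite.equivFin Δ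
        refine ⟨fun i => if hi : (i : ℕ) < Nat.card Δ then e1.symm ⟨i, hi⟩ else 1, fun s => ?_⟩
        refine ⟨⟨(e1 s : ℕ), lt_of_lt_of_le (e1 s).2 (hΔd.trans (Nat.le_succ d))⟩, ?_⟩
        beta_reduce
        rw [dif_pos (e1 s).2]
        exact e1.symm_apply_apply s
      obtain ⟨i0, hi0⟩ := hf 1
      refine ⟨fun i => ((f i : MulAut 𝒢) : 𝒢 ≃* 𝒢).toMonoidHom, i0, fun x => ?_, fun s hs i => ?_⟩
      · show (f i0 : MulAut 𝒢) x = x
        rw [hi0]
        rfl
      · obtain ⟨j, hj⟩ := hf (⟨s, hs⟩ * f i)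
        refine ⟨j, fun x => ?_⟩
        show s ((f i : MulAut 𝒢) x) = (f j : MulAut 𝒢) x
        rw [hj]
        rfl
    have hmain' : ∀ g : ℕ → 𝒢, ∃ I : ℕ → Finset ℕ,
        (∀ k, (I k).Nonempty ∧ I k ⊆ Finset.Ico (B k) (B (k + 1))) ∧
        ∃ ℋ : Subgroup 𝒢, Subgroup.closure (Set.range fun k => ∏ j ∈ I k, g j) ≤ ℋ ∧
          (∀ s ∈ Δ, ∀ x ∈ ℋ, s x ∈ ℋ) ∧ ∀ x ∈ ℋ, Good F n c S (χ x) := by
      intro g
      obtain ⟨I, hI1, hI2⟩ := hmain τ g
      exact ⟨I, hI1, H92.clo τ g I, H92.clo_le τ g I i0 hτ0,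
        fun s hs x hx => H92.clo_stable τ g I s.toMonoidHom (hτΔ s hs) hx, hI2⟩
    obtain ⟨φ, hφ1, hφ2⟩ := Pool.Agent.Y683.CG.sub_exists (e := l ^ e) (pow_pos hl.pos e) B
      (⊤ : Subgroup 𝒢) (fun g _ => hχ.exponent g)
    obtain ⟨I, hI1, ℋ, hI2, hI3, hI4⟩ := hmain' φ
    obtain ⟨-, h4, h5⟩ := hφ2 I hI1
    refine ⟨fun g => ?_, fun hinf => ⟨ℋ, ?_, hI3, hI4⟩, fun t ht => ⟨ℋ, ?_, hI3, hI4⟩⟩
    · obtain ⟨I, hI1, ℋ, hI2, hI3, hI4⟩ := hmain' g
      refine ⟨I, fun k => ⟨(hI1 k).1, fun j hj => Finset.mem_Ico.1 ((hI1 k).2 hj)⟩, ℋ,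
        fun k => hI2 (Subgroup.subset_closure ⟨k, rfl⟩), hI3, hI4⟩
    · have h6 := h4 (by
        have e1 := (Subgroup.topEquiv (G := 𝒢)).toEquiv
        exact e1.infinite_iff.2 hinf)
      exact Infinite.of_injective _ (Subgroup.inclusion_injective hI2)
    · have h7 : 0 < Nat.card 𝒢 := lt_of_le_of_lt (Nat.zero_le _) ht
      have hfin : Finite 𝒢 := Nat.finite_of_card_ne_zero h7.ne'
      refine (h5 t ?_).trans (Nat.card_le_card_of_injective _ (Subgroup.inclusion_injective hI2))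
      rw [Subgroup.card_top, ← pow_mul]
      exact ht
  · obtain ⟨𝒦, hK1, hK2⟩ := H92.syndetic (fun x : 𝒢 => Good F n c S (χ x)) (B 1) (fun g => by
      obtain ⟨I, hI1, hI2⟩ := hmain (fun _ => MonoidHom.id 𝒢) g
      refine ⟨I 0, (hI1 0).1, fun j hj => ?_, hI2 _ (Subgroup.subset_closure ⟨0, 0, rfl⟩)⟩
      exact Finset.mem_range.2 (Finset.mem_Ico.1 ((hI1 0).2 hj)).2)
    exact ⟨⟨𝒦, hK1, hK2⟩, H92G.count_of_cover hCG hχ.injective (pow_pos hl.pos e) hχ.exponent
      (fun x => Good F n c S (χ x)) 𝒦 hK2⟩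

end Pool.Agent.Results.MP_50bb2e_nt.BianchiAbelianExtensions
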